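import Pool.Agent.Helper82_PFJ.FIB
import Pool.Agent.Helper32_PFS.Cd1

/-!
# Codimension one simplices: the reducible case, and the theorem in low dimensions
-/

set_option autoImplicit false

open Matrix Filter Topology

namespace Pool.Agent.PFJ.H82

open Pool.Agent.PFS Pool.Agent.PFS.H32

section large

variable {n : ℕ} {C : Set (V n)}

/-- the zoomed pair of operators -/
theorem zoom_pair2 (zom : ZomStmt) {Γ : Subgroup (GL (Fin n) ℝ)} (h : CC C Γ) {x u : V n}
    (hx : x ∈ closure C) (hu : u ∈ closure C) (hpC : ∀ t : ℝ, 0 < t → x + t • u ∈ C)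
    (hpH : ∀ t : ℝ, 0 < t → x + t • u ∈ Hull C Γ) (φ : V n →L[ℝ] ℝ) (hφu : φ u = 1)
    (hφ0 : ∀ v ∈ closure C, 0 ≤ φ v) (hφF : ∀ a ∈ Face C x, φ a = 0)
    (hφL : ∀ v, φ v = 0 → v ∈ Submodule.span ℝ (Face C x)) :
    ∃ A B : V n →L[ℝ] V n, (∀ v, A (B v) = v) ∧ (∀ v, B (A v) = v) ∧ A u ∈ closure C ∧
      (∀ v ∈ closure C, 0 ≤ φ (B v) ∧ A (B v - φ (B v) • u) ∈ closure C) ∧ A (x + u) ∈ C ∧
      ∃ (g : ℕ → GL (Fin n) ℝ) (s τ : ℕ → ℝ), (∀ m, g m ∈ Γ) ∧ (∀ m, 0 < s m) ∧
        (∀ m, 0 < τ m) ∧ (∀ m, τ m ≤ 1) ∧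
        ∀ v, Tendsto (fun m => s m • act (g m) (v + ((τ m - 1) * φ v) • u)) atTop (𝓝 (A v)) := by
  have hC : PCone C := h.toPCone
  have hccl : IsClosed (closure C) := isClosed_closure
  have hφx : φ x = 0 := hφF x (face_self hC)
  obtain ⟨ψ0, g0, s0, q, hψ0, hg0, hs0, hq, hlim0⟩ := zom n C Γ h
    (fun m => x + (1 / ((m : ℝ) + 1)) • u) (fun m => hpC _ (by positivity))
    (fun m => hpH _ (by positivity))
  obtain ⟨N, hN⟩ := eventually_atTop.1 (hC.squeeze hq hlim0 (M := 2) (by norm_num))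
  -- shifted sequences
  set τ : ℕ → ℝ := fun m => 1 / ((ψ0 (m + N) : ℝ) + 1) with hτ
  set g : ℕ → GL (Fin n) ℝ := fun m => g0 (m + N) with hg
  set s : ℕ → ℝ := fun m => s0 (m + N) with hs
  have hτ0 : ∀ m, 0 < τ m := fun m => by positivity
  have hτ1 : ∀ m, τ m ≤ 1 := by
    intro m
    rw [hτ]
    simp only
    rw [div_le_one (by positivity)]
    have : (0 : ℝ) ≤ (ψ0 (m + N) : ℝ) := by positivity
    linarith
  have hτt : Tendsto τ atTop (𝓝 0) := by
    have h1 : Tendsto (fun m => ψ0 (m + N)) atTop atTop :=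
      hψ0.tendsto_atTop.comp (tendsto_add_atTop_nat N)
    exact tendsto_one_div_add_atTop_nhds_zero_nat.comp h1
  have hlim : Tendsto (fun m => s m • act (g m) (x + τ m • u)) atTop (𝓝 q) :=
    hlim0.comp (tendsto_add_atTop_nat N)
  have hsq : ∀ m, (2 : ℝ) • (s m • act (g m) (x + τ m • u)) - q ∈ closure C := fun m =>
    subset_closure (hN (m + N) (by omega)).2
  have hgΓ : ∀ m, g m ∈ Γ := fun m => hg0 _
  have hs' : ∀ m, 0 < s m := fun m => hs0 _
  -- operators
  set G : ℕ → (V n →L[ℝ] V n) := fun m =>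
    s m • LinearMap.toContinuousLinearMap (Matrix.mulVecLin (g m : Matrix (Fin n) (Fin n) ℝ))
    with hG
  set Gi : ℕ → (V n →L[ℝ] V n) := fun m =>
    (s m)⁻¹ • LinearMap.toContinuousLinearMap
      (Matrix.mulVecLin (((g m)⁻¹ : GL (Fin n) ℝ) : Matrix (Fin n) (Fin n) ℝ)) with hGi
  have hGa : ∀ m v, G m v = s m • act (g m) v := fun m v => rfl
  have hGia : ∀ m v, Gi m v = (s m)⁻¹ • act (g m)⁻¹ v := fun m v => rfl
  have hGGi : ∀ m v, G m (Gi m v) = v := by
    intro m v
    rw [hGa, hGia, CC.act_smul, CC.act_act_inv, smul_smul, mul_inv_cancel₀ (hs' m).ne', one_smul]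
  have hGiG : ∀ m v, Gi m (G m v) = v := by
    intro m v
    rw [hGa, hGia, CC.act_smul, CC.act_inv_act, smul_smul, inv_mul_cancel₀ (hs' m).ne', one_smul]
  have hGcl : ∀ m v, v ∈ closure C → G m v ∈ closure C := fun m v hv => by
    rw [hGa]; exact (h.sact_cl_iff (hgΓ m) (hs' m)).2 hv
  have hGicl : ∀ m v, v ∈ closure C → Gi m v ∈ closure C := fun m v hv => by
    rw [hGia]; exact (h.sact_cl_iff (Γ.inv_mem (hgΓ m)) (inv_pos.2 (hs' m))).2 hv
  set D : ℝ → (V n →L[ℝ] V n) := fun t =>
    ContinuousLinearMap.id ℝ (V n) + (t - 1) • (φ.smulRight u) with hD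
  have hDa : ∀ t v, D t v = v + ((t - 1) * φ v) • u := by
    intro t v
    simp [hD, smul_smul]
  have hφD : ∀ t v, φ (D t v) = t * φ v := by
    intro t v
    rw [hDa, map_add, map_smul, hφu, smul_eq_mul]
    ring
  have hDD : ∀ a b v, a * b = 1 → D a (D b v) = v := by
    intro a b v hab
    rw [hDa a, hφD, hDa]
    have h1 : v + ((b - 1) * φ v) • u + ((a - 1) * (b * φ v)) • u =
        v + ((a * b - 1) * φ v) • u := by module
    rw [h1, hab]
    simp
  obtain ⟨Bn, hBn, hnorm⟩ := hC.normal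
  -- boundedness
  have hpbd : ∃ R : ℝ, ∀ m, ‖G m (x + τ m • u)‖ ≤ R := by
    obtain ⟨R, hR⟩ := hlim.norm.bddAbove_range
    exact ⟨R, fun m => hR ⟨m, rfl⟩⟩
  obtain ⟨R, hR⟩ := hpbd
  have hR0 : 0 ≤ R := (norm_nonneg _).trans (hR 0)
  have hsmall : ∀ (m : ℕ) (a : V n) (β : ℝ), 0 ≤ β → a ∈ closure C →
      β • (x + τ m • u) - a ∈ closure C → ‖G m a‖ ≤ Bn * (β * R) := by
    intro m a β hβ ha hle
    have h1 := hnorm (G m a) (G m (β • (x + τ m • u))) (hGcl m _ ha) (by
      rw [← map_sub]; exact hGcl m _ hle)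
    rw [map_smul, norm_smul, Real.norm_of_nonneg hβ] at h1
    refine h1.trans ?_
    have := hR m
    gcongr
  have hAbd : ∀ v, ∃ M : ℝ, ∀ m, ‖((G m).comp (D (τ m))) v‖ ≤ M := by
    intro v
    have hv0 : φ (v - φ v • u) = 0 := by rw [map_sub, map_smul, hφu]; simp
    obtain ⟨a, ha, b, hb, hab⟩ := span_face hC hx (hφL _ hv0)
    have hface : ∀ a ∈ Face C x, ∃ M : ℝ, ∀ m, ‖G m a‖ ≤ M := by
      intro a ha
      have hac := face_cl hC hx ha
      obtain ⟨ε, hε, h1, _⟩ := ha
      refine ⟨Bn * (ε⁻¹ * R), fun m => hsmall m a ε⁻¹ (inv_pos.2 hε).le hac ?_⟩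
      have h2 : ε⁻¹ • (x - ε • a) + (ε⁻¹ * τ m) • u ∈ closure C :=
        hC.cl_add (hC.cl_smul h1 (inv_pos.2 hε).le)
          (hC.cl_smul hu (mul_pos (inv_pos.2 hε) (hτ0 m)).le)
      have h3 : ε⁻¹ • (x - ε • a) + (ε⁻¹ * τ m) • u = ε⁻¹ • (x + τ m • u) - a := by
        rw [smul_sub, smul_smul, inv_mul_cancel₀ hε.ne', one_smul]
        module
      rwa [h3] at h2
    obtain ⟨Ma, hMa⟩ := hface a ha
    obtain ⟨Mb, hMb⟩ := hface b hb
    refine ⟨Ma + Mb + |φ v| * (Bn * (1 * R)), fun m => ?_⟩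
    have h1 : ((G m).comp (D (τ m))) v = G m a - G m b + φ v • G m (τ m • u) := by
      rw [ContinuousLinearMap.comp_apply, hDa, ← map_sub, ← hab, ← map_smul, ← map_add]
      congr 1
      module
    rw [h1]
    refine (norm_add_le _ _).trans (add_le_add ((norm_sub_le _ _).trans
      (add_le_add (hMa m) (hMb m))) ?_)
    rw [norm_smul, Real.norm_eq_abs]
    refine mul_le_mul_of_nonneg_left ?_ (abs_nonneg _)
    refine hsmall m _ 1 zero_le_one (hC.cl_smul hu (hτ0 m).le) ?_
    rw [one_smul, add_sub_cancel_right]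
    exact hx
  have hBbd : ∀ v, ∃ M : ℝ, ∀ m, ‖((D (τ m)⁻¹).comp (Gi m)) v‖ ≤ M := by
    intro v
    obtain ⟨β1, hβ1, h1⟩ := hC.absorb hq v
    obtain ⟨β2, hβ2, h2⟩ := hC.absorb hq (-v)
    set β : ℝ := β1 + β2 with hβ
    have hβ0 : 0 < β := by positivity
    have hqc : q ∈ closure C := subset_closure hq
    have h3 : β • q - v ∈ closure C := by
      have h4 : (β1 • q - v) + β2 • q ∈ closure C :=
        hC.cl_add (subset_closure h1) (hC.cl_smul hqc hβ2.le)
      have h5 : (β1 • q - v) + β2 • q = β • q - v := by rw [hβ]; module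
      rwa [h5] at h4
    have h3' : β • q + v ∈ closure C := by
      have h4 : (β2 • q - -v) + β1 • q ∈ closure C :=
        hC.cl_add (subset_closure h2) (hC.cl_smul hqc hβ1.le)
      have h5 : (β2 • q - -v) + β1 • q = β • q + v := by rw [hβ]; module
      rwa [h5] at h4
    -- bounds for u_m
    have h6 : ∀ m, (2 * β) • (x + τ m • u) - Gi m v ∈ closure C := by
      intro m
      have h7 : β • ((2 : ℝ) • (s m • act (g m) (x + τ m • u)) - q) + (β • q - v) ∈ closure C :=
        hC.cl_add (hC.cl_smul (hsq m) hβ0.le) h3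
      have h8 := hGicl m _ h7
      have h9 : β • ((2 : ℝ) • (s m • act (g m) (x + τ m • u)) - q) + (β • q - v) =
          G m ((2 * β) • (x + τ m • u)) - v := by
        rw [map_smul, hGa]; module
      rwa [h9, map_sub, hGiG] at h8
    have h6' : ∀ m, (2 * β) • (x + τ m • u) + Gi m v ∈ closure C := by
      intro m
      have h7 : β • ((2 : ℝ) • (s m • act (g m) (x + τ m • u)) - q) + (β • q + v) ∈ closure C :=
        hC.cl_add (hC.cl_smul (hsq m) hβ0.le) h3'
      have h8 := hGicl m _ h7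
      have h9 : β • ((2 : ℝ) • (s m • act (g m) (x + τ m • u)) - q) + (β • q + v) =
          G m ((2 * β) • (x + τ m • u)) + v := by
        rw [map_smul, hGa]; module
      rwa [h9, map_add, hGiG] at h8
    have hpn : ∀ m, ‖x + τ m • u‖ ≤ ‖x‖ + ‖u‖ := by
      intro m
      refine (norm_add_le _ _).trans (add_le_add le_rfl ?_)
      rw [norm_smul, Real.norm_of_nonneg (hτ0 m).le]
      exact mul_le_of_le_one_left (norm_nonneg _) (hτ1 m)
    have hun : ∀ m, ‖Gi m v‖ ≤ (Bn * (4 * β) + 2 * β) * (‖x‖ + ‖u‖) := by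
      intro m
      have h7 := hnorm ((2 * β) • (x + τ m • u) + Gi m v) ((4 * β) • (x + τ m • u)) (h6' m) (by
        have h8 := h6 m
        have h9 : (4 * β) • (x + τ m • u) - ((2 * β) • (x + τ m • u) + Gi m v) =
            (2 * β) • (x + τ m • u) - Gi m v := by module
        rwa [h9])
      rw [norm_smul, Real.norm_of_nonneg (by positivity : (0 : ℝ) ≤ 4 * β)] at h7
      have h8 : Gi m v = ((2 * β) • (x + τ m • u) + Gi m v) - (2 * β) • (x + τ m • u) := by
        abel
      have h9 : ‖Gi m v‖ ≤ ‖(2 * β) • (x + τ m • u) + Gi m v‖ + ‖(2 * β) • (x + τ m • u)‖ := by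
        calc ‖Gi m v‖ = ‖((2 * β) • (x + τ m • u) + Gi m v) - (2 * β) • (x + τ m • u)‖ :=
              congrArg _ h8
          _ ≤ _ := norm_sub_le _ _
      rw [norm_smul (2 * β), Real.norm_of_nonneg (by positivity : (0 : ℝ) ≤ 2 * β)] at h9
      have h10 := hpn m
      have h11 : Bn * (4 * β * ‖x + τ m • u‖) ≤ Bn * (4 * β * (‖x‖ + ‖u‖)) := by gcongr
      have h12 : 2 * β * ‖x + τ m • u‖ ≤ 2 * β * (‖x‖ + ‖u‖) := by gcongr
      calc ‖Gi m v‖ ≤ _ := h9
        _ ≤ Bn * (4 * β * (‖x‖ + ‖u‖)) + 2 * β * (‖x‖ + ‖u‖) := add_le_add (h7.trans h11) h12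
        _ = _ := by ring
    have hφp : ∀ m, φ (x + τ m • u) = τ m := by
      intro m
      rw [map_add, map_smul, hφx, hφu]; simp
    have hφb : ∀ m, |φ (Gi m v)| ≤ 2 * β * τ m := by
      intro m
      have h7 := hφ0 _ (h6 m)
      have h8 := hφ0 _ (h6' m)
      rw [map_sub, map_smul, hφp, smul_eq_mul] at h7
      rw [map_add, map_smul, hφp, smul_eq_mul] at h8
      rw [abs_le]
      constructor <;> linarith
    refine ⟨(Bn * (4 * β) + 2 * β) * (‖x‖ + ‖u‖) + 2 * β * ‖u‖, fun m => ?_⟩
    rw [ContinuousLinearMap.comp_apply, hDa]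
    refine (norm_add_le _ _).trans (add_le_add (hun m) ?_)
    rw [norm_smul, Real.norm_eq_abs, abs_mul]
    refine mul_le_mul_of_nonneg_right ?_ (norm_nonneg _)
    have h7 : |(τ m)⁻¹ - 1| ≤ (τ m)⁻¹ := by
      have h8 : 1 ≤ (τ m)⁻¹ := (one_le_inv₀ (hτ0 m)).2 (hτ1 m)
      rw [abs_of_nonneg (by linarith)]
      linarith
    calc |(τ m)⁻¹ - 1| * |φ (Gi m v)| ≤ (τ m)⁻¹ * (2 * β * τ m) :=
          mul_le_mul h7 (hφb m) (abs_nonneg _) (inv_pos.2 (hτ0 m)).le
      _ = 2 * β := by
          have := (hτ0 m).ne'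
          field_simp
  obtain ⟨ψ, A, B, hψ, hA, hB, hAB, hBA⟩ := pair_limit (fun m => (G m).comp (D (τ m)))
    (fun m => (D (τ m)⁻¹).comp (Gi m))
    (fun m v => by
      simp only [ContinuousLinearMap.comp_apply]
      rw [hDD _ _ _ (mul_inv_cancel₀ (hτ0 m).ne'), hGGi])
    (fun m v => by
      simp only [ContinuousLinearMap.comp_apply]
      rw [hGiG, hDD _ _ _ (inv_mul_cancel₀ (hτ0 m).ne')]) hAbd hBbd
  have hτψ : Tendsto (fun m => τ (ψ m)) atTop (𝓝 0) := hτt.comp hψ.tendsto_atTop
  have hAlim : ∀ v, Tendsto (fun m => s (ψ m) • act (g (ψ m)) (v + ((τ (ψ m) - 1) * φ v) • u))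
      atTop (𝓝 (A v)) := by
    intro v
    refine (hA v).congr fun m => ?_
    rw [ContinuousLinearMap.comp_apply, hDa, hGa]
  refine ⟨A, B, hAB, hBA, ?_, ?_, ?_, fun m => g (ψ m), fun m => s (ψ m), fun m => τ (ψ m),
    fun m => hgΓ _, fun m => hs' _, fun m => hτ0 _, fun m => hτ1 _, hAlim⟩
  · refine hccl.mem_of_tendsto (hA u) (Eventually.of_forall fun m => ?_)
    rw [ContinuousLinearMap.comp_apply]
    refine hGcl _ _ ?_
    have h1 : D (τ (ψ m)) u = τ (ψ m) • u := by
      rw [hDa, hφu]; module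
    rw [h1]
    exact hC.cl_smul hu (hτ0 _).le
  · intro v hv
    have hφB : ∀ m, φ ((D (τ m)⁻¹).comp (Gi m) v) = (τ m)⁻¹ * φ (Gi m v) := by
      intro m
      rw [ContinuousLinearMap.comp_apply, hφD]
    have h1 : Tendsto (fun m => φ ((D (τ (ψ m))⁻¹).comp (Gi (ψ m)) v)) atTop (𝓝 (φ (B v))) :=
      (φ.continuous.tendsto _).comp (hB v)
    have h2 : 0 ≤ φ (B v) := by
      refine ge_of_tendsto h1 (Eventually.of_forall fun m => ?_)
      rw [hφB]
      exact mul_nonneg (inv_pos.2 (hτ0 _)).le (hφ0 _ (hGicl _ _ hv))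
    refine ⟨h2, ?_⟩
    -- the limit of u_m
    have h3 : Tendsto (fun m => Gi (ψ m) v) atTop (𝓝 (B v - φ (B v) • u)) := by
      have h4 : Tendsto (fun m => (D (τ (ψ m))⁻¹).comp (Gi (ψ m)) v -
          ((1 - τ (ψ m)) * φ ((D (τ (ψ m))⁻¹).comp (Gi (ψ m)) v)) • u) atTop
          (𝓝 (B v - ((1 - 0) * φ (B v)) • u)) :=
        (hB v).sub (((tendsto_const_nhds.sub hτψ).mul h1).smul_const u)
      rw [sub_zero, one_mul] at h4
      refine h4.congr fun m => ?_
      rw [hφB, ContinuousLinearMap.comp_apply, hDa]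
      have h5 := (hτ0 (ψ m)).ne'
      have h6 : (1 - τ (ψ m)) * ((τ (ψ m))⁻¹ * φ (Gi (ψ m) v)) =
          ((τ (ψ m))⁻¹ - 1) * φ (Gi (ψ m) v) := by
        field_simp
      rw [h6, add_sub_cancel_right]
    have h4 : B v - φ (B v) • u ∈ closure C :=
      hccl.mem_of_tendsto h3 (Eventually.of_forall fun m => hGicl _ _ hv)
    have h5 : φ (B v - φ (B v) • u) = 0 := by
      rw [map_sub, map_smul, hφu]; simp
    refine hccl.mem_of_tendsto (hA _) (Eventually.of_forall fun m => ?_)
    rw [ContinuousLinearMap.comp_apply]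
    refine hGcl _ _ ?_
    rw [hDa, h5, mul_zero, zero_smul, add_zero]
    exact h4
  · have h1 := hAlim (x + u)
    have h2 : A (x + u) = q := by
      refine tendsto_nhds_unique h1 ((hlim.comp hψ.tendsto_atTop).congr fun m => ?_)
      simp only [Function.comp_apply]
      congr 2
      rw [map_add, hφx, hφu]
      module
    rw [h2]; exact hq

/-- a facet whose face is too big: the domain is reducible, with an adapted simplex -/
theorem cd2 {Γ : Subgroup (GL (Fin n) ℝ)} (h : CC C Γ) {K : ℕ} (hK : 2 ≤ K) (hn : n = K + 1)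
    {w : Fin K → V n} (hw : IsPES C Γ w) (l : Fin K)
    (hr : K ≤ Module.finrank ℝ
      (Submodule.span ℝ (Face C (∑ i ∈ Finset.univ.erase l, w i)))) :
    ∃ (w' : Fin K → V n) (P : V n →ₗ[ℝ] V n), IsPES C Γ w' ∧ (∀ x, P (P x) = P x) ∧
      (∀ x ∈ closure C, P x ∈ closure C ∧ x - P x ∈ closure C) ∧ P (w' l) = w' l ∧
      (∀ i, i ≠ l → P (w' i) = 0) ∧ ∀ x, ∃ c : ℝ, P x = c • w' l := by
  classical
  have hC : PCone C := h.toPCone
  have hul := h.hul
  have hwc : ∀ i, w i ∈ closure C := fun i => hul.lamCl _ (hw.2 i)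
  set x : V n := ∑ i ∈ Finset.univ.erase l, w i with hxdef
  have hx : x ∈ closure C := hC.cl_sum fun i _ => hwc i
  have hxe : ∀ c : Fin K → ℝ, c l = 0 → (∀ i, i ≠ l → c i = 1) → x = ∑ i, c i • w i := by
    intro c h1 h2
    rw [← Finset.add_sum_erase Finset.univ _ (Finset.mem_univ l), h1, zero_smul, zero_add]
    refine Finset.sum_congr rfl fun i hi => ?_
    rw [h2 i (Finset.ne_of_mem_erase hi), one_smul]
  have hxC : x ∉ C := by
    rw [hxe (fun i => if i = l then 0 else 1) (by simp) (fun i hi => by simp [hi])]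
    refine hw.1.bd _ (fun i => ?_) ⟨l, by simp⟩
    split_ifs <;> norm_num
  have hsum : ∀ t : ℝ, x + t • w l = ∑ i, (if i = l then t else 1) • w i := by
    intro t
    rw [← Finset.add_sum_erase Finset.univ _ (Finset.mem_univ l), if_pos rfl, add_comm]
    congr 1
    refine Finset.sum_congr rfl fun i hi => ?_
    rw [if_neg (Finset.ne_of_mem_erase hi), one_smul]
  have hpC : ∀ t : ℝ, 0 < t → x + t • w l ∈ C := by
    intro t ht
    rw [hsum]
    refine hw.1.pos _ fun i => ?_
    split_ifs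
    · exact ht
    · exact one_pos
  have hpH : ∀ t : ℝ, 0 < t → x + t • w l ∈ Hull C Γ := by
    intro t ht
    rw [hsum]
    refine Finset.sum_induction_nonempty _ (fun v => v ∈ Hull C Γ)
      (fun a b ha hb => hul.add a ha b hb) ⟨l, Finset.mem_univ l⟩ fun i _ => ?_
    refine hul.smul _ (hul.lamHull _ (hw.2 i)) _ ?_
    split_ifs
    · exact ht
    · exact one_pos
  have hxw : ∀ i, i ≠ l → x + w i ∈ Face C x := by
    intro i hi
    have h1 : x - w i ∈ closure C := by
      have h2 : x - w i = ∑ j ∈ (Finset.univ.erase l).erase i, w j := by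
        rw [hxdef, ← Finset.add_sum_erase (Finset.univ.erase l) _
          (Finset.mem_erase.2 ⟨hi, Finset.mem_univ i⟩)]
        abel
      rw [h2]
      exact hC.cl_sum fun j _ => hwc j
    refine ⟨1 / 2, by norm_num, ?_, ?_⟩
    · have h2 : x - (1 / 2 : ℝ) • (x + w i) = (1 / 2 : ℝ) • (x - w i) := by module
      rw [h2]
      exact hC.cl_smul h1 (by norm_num)
    · have h2 : x + w i - (1 / 2 : ℝ) • x = (1 / 2 : ℝ) • x + w i := by module
      rw [h2]
      exact hC.cl_add (hC.cl_smul hx (by norm_num)) (hwc i)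
  obtain ⟨φ, hφu, hφ0, hφF, hφL⟩ := form_large hC hx hxC (by simpa using hpC 1 one_pos) hn hr
  obtain ⟨A, B, hAB, hBA, hAu, hcone, hAxu, g, s, τ, hg, hs, hτ0, hτ1, hlim⟩ :=
    zoom_pair2 H60.zom h hx (hwc l) hpC hpH φ hφu hφ0 hφF hφL
  have hφi : ∀ i, i ≠ l → φ (w i) = 0 := by
    intro i hi
    have h2 := hφF _ (hxw i hi)
    rwa [map_add, hφF x (face_self hC), zero_add] at h2
  -- the zoomed vertices
  have hD : ∀ (m : ℕ) (i : Fin K), w i + ((τ m - 1) * φ (w i)) • w l =
      (if i = l then τ m else 1) • w i := by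
    intro m i
    by_cases hi : i = l
    · subst hi; rw [if_pos rfl, hφu]; module
    · rw [if_neg hi, hφi i hi]; module
  have hvlim : ∀ i, Tendsto (fun m => s m • act (g m) ((if i = l then τ m else 1) • w i)) atTop
      (𝓝 (A (w i))) := by
    intro i
    refine (hlim (w i)).congr fun m => ?_
    rw [hD]
  have hvpos : ∀ (m : ℕ) (i : Fin K), (0 : ℝ) < if i = l then τ m else 1 := by
    intro m i
    split_ifs
    · exact hτ0 m
    · exact one_pos
  have hvH : ∀ (m : ℕ) (i : Fin K),
      s m • act (g m) ((if i = l then τ m else 1) • w i) ∈ Hull C Γ := fun m i =>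
    hul.smul _ (hul.act _ (hul.smul _ (hul.lamHull _ (hw.2 i)) _ (hvpos m i)) _ (hg m)) _ (hs m)
  have hcl : ∀ i, A (w i) ∈ closure C := fun i =>
    isClosed_closure.mem_of_tendsto (hvlim i) (Eventually.of_forall fun m =>
      hul.hullCl _ (hvH m i))
  have hsumA : ∑ i, A (w i) ∈ C := by
    have h1 : ∑ i, A (w i) = A (x + w l) := by
      rw [← map_sum]
      congr 1
      have h2 := hsum 1
      rw [one_smul] at h2
      rw [h2]
      refine Finset.sum_congr rfl fun i _ => ?_
      split_ifs <;> rw [one_smul]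
    rw [h1]; exact hAxu
  have homit : ∀ i, ∑ j ∈ Finset.univ.erase i, A (w j) ∉ C := by
    intro i hmem
    have h1 : Tendsto (fun m => ∑ j ∈ Finset.univ.erase i,
        s m • act (g m) ((if j = l then τ m else 1) • w j)) atTop
        (𝓝 (∑ j ∈ Finset.univ.erase i, A (w j))) :=
      tendsto_finsetSum _ fun j _ => hvlim j
    obtain ⟨m, hm0⟩ := (h1.eventually (h.isOpen.mem_nhds hmem)).exists
    have hm : ∑ j ∈ Finset.univ.erase i,
        s m • act (g m) ((if j = l then τ m else 1) • w j) ∈ C := hm0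
    rw [← Finset.smul_sum, ← CC.act_sum, h.sact_mem_iff (hg m) (hs m)] at hm
    refine hw.1.bd (fun j => if j = i then 0 else if j = l then τ m else 1) (fun j => ?_)
      ⟨i, by simp⟩ ?_
    · split_ifs
      · exact le_rfl
      · exact (hτ0 m).le
      · exact zero_le_one
    · rw [← Finset.add_sum_erase Finset.univ _ (Finset.mem_univ i), if_pos rfl, zero_smul,
        zero_add]
      have h2 : ∑ j ∈ Finset.univ.erase i, (if j = i then (0 : ℝ) else if j = l then τ m else 1) •
          w j = ∑ j ∈ Finset.univ.erase i, (if j = l then τ m else 1) • w j := by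
        refine Finset.sum_congr rfl fun j hj => ?_
        rw [if_neg (Finset.ne_of_mem_erase hj)]
      rw [h2]; exact hm
  have hPES : PES C (fun i => A (w i)) := H60.crt n C hC (Fin K) _ hcl hsumA homit
  have hlam : ∀ i, A (w i) ∈ LamC C Γ := by
    intro i
    refine H37.cloF n C Γ h _ _ (fun m => hvH m i) (hvlim i) ?_ ?_
    · have h1 := hPES.bd (fun j => if j = i then 1 else 0) (fun j => by split_ifs <;> norm_num)
      have : Nontrivial (Fin K) := Fin.nontrivial_iff_two_le.2 hK
      obtain ⟨i', hi'⟩ := exists_ne i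
      have h2 := h1 ⟨i', by simp [hi']⟩
      simpa using h2
    · intro h0
      have h1 := hBA (w i)
      rw [h0, map_zero] at h1
      exact hul.lamNe _ (hw.2 i) h1.symm
  refine ⟨fun i => A (w i),
    LinearMap.smulRight (φ.toLinearMap.comp B.toLinearMap) (A (w l)), ⟨hPES, hlam⟩,
    ?_, ?_, ?_, ?_, ?_⟩
  · intro v
    simp only [LinearMap.smulRight_apply, LinearMap.comp_apply, ContinuousLinearMap.coe_coe,
      map_smul, hBA, hφu, one_smul]
  · intro v hv
    obtain ⟨h2, h3⟩ := hcone v hv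
    simp only [LinearMap.smulRight_apply, LinearMap.comp_apply, ContinuousLinearMap.coe_coe]
    refine ⟨hC.cl_smul hAu h2, ?_⟩
    rwa [map_sub, map_smul, hAB] at h3
  · simp only [LinearMap.smulRight_apply, LinearMap.comp_apply, ContinuousLinearMap.coe_coe, hBA,
      hφu, one_smul]
  · intro i hi
    simp only [LinearMap.smulRight_apply, LinearMap.comp_apply, ContinuousLinearMap.coe_coe, hBA,
      hφi i hi, zero_smul]
  · intro v
    exact ⟨φ (B v), rfl⟩

end large

/-- the conclusion of Q1 in dimension at most three (`n ≤ 4`) -/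
theorem low (fib : FibStmt) {n : ℕ} {C : Set (V n)} {Γ : Subgroup (GL (Fin n) ℝ)} (h : CC C Γ)
    (hn : n ≤ 4) (h3 : ∃ w : Fin 3 → V n, IsPES C Γ w) :
    ∃ k : ℕ, 2 ≤ k ∧ ∃ v : Fin (k + 1) → V n, Concl C Γ k v := by
  classical
  have hC : PCone C := h.toPCone
  obtain ⟨k, hk, ⟨v, hv⟩, hmax⟩ := H73.mxk H60.lin n C Γ h h3
  have hkn : k + 1 ≤ n := by
    have h1 := (H60.lin n C hC (Fin (k + 1)) v hv.1).fintype_card_le_finrank
    rwa [Fintype.card_fin, Module.finrank_fin_fun] at h1
  by_cases hall : ∀ (w : Fin (k + 1) → V n), IsPES C Γ w → ∀ l : Fin (k + 1),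
      Module.finrank ℝ (Submodule.span ℝ (Face C (∑ i ∈ Finset.univ.erase l, w i))) ≤ (k + 1) - 1
  · refine ⟨k, hk, v, H37.orbF h hk hmax v hv fun w hw _ => ?_⟩
    intro l y hy
    have hwc : ∀ i, w i ∈ closure C := fun i => h.hul.lamCl _ (hw.2 i)
    refine face_small H60.lin hC hw.1 hwc l ?_ (hall w hw l) hy
    intro i hi
    set x : V n := ∑ i ∈ Finset.univ.erase l, w i with hxdef
    have hx : x ∈ closure C := hC.cl_sum fun i _ => hwc i
    have hxw : x + w i ∈ Face C x := by
      have h1 : x - w i ∈ closure C := by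
        have h2 : x - w i = ∑ j ∈ (Finset.univ.erase l).erase i, w j := by
          rw [hxdef, ← Finset.add_sum_erase (Finset.univ.erase l) _
            (Finset.mem_erase.2 ⟨hi, Finset.mem_univ i⟩)]
          abel
        rw [h2]
        exact hC.cl_sum fun j _ => hwc j
      refine ⟨1 / 2, by norm_num, ?_, ?_⟩
      · have h2 : x - (1 / 2 : ℝ) • (x + w i) = (1 / 2 : ℝ) • (x - w i) := by module
        rw [h2]
        exact hC.cl_smul h1 (by norm_num)
      · have h2 : x + w i - (1 / 2 : ℝ) • x = (1 / 2 : ℝ) • x + w i := by module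
        rw [h2]
        exact hC.cl_add (hC.cl_smul hx (by norm_num)) (hwc i)
    have h1 : w i = (x + w i) - x := by abel
    rw [h1]
    exact Submodule.sub_mem _ (Submodule.subset_span hxw) (Submodule.subset_span (face_self hC))
  · push Not at hall
    obtain ⟨w, hw, l, hl⟩ := hall
    have hwc : ∀ i, w i ∈ closure C := fun i => h.hul.lamCl _ (hw.2 i)
    have hx : ∑ i ∈ Finset.univ.erase l, w i ∈ closure C := hC.cl_sum fun i _ => hwc i
    have hxC : ∑ i ∈ Finset.univ.erase l, w i ∉ C := by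
      have h1 := hw.1.bd (fun i => if i = l then 0 else 1) (fun i => by split_ifs <;> norm_num)
        ⟨l, by simp⟩
      rw [← Finset.add_sum_erase Finset.univ _ (Finset.mem_univ l), if_pos rfl, zero_smul,
        zero_add] at h1
      have h2 : ∑ i ∈ Finset.univ.erase l, (if i = l then (0 : ℝ) else 1) • w i =
          ∑ i ∈ Finset.univ.erase l, w i := by
        refine Finset.sum_congr rfl fun i hi => ?_
        rw [if_neg (Finset.ne_of_mem_erase hi), one_smul]
      rwa [h2] at h1
    have hlt : Module.finrank ℝ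
        (Submodule.span ℝ (Face C (∑ i ∈ Finset.univ.erase l, w i))) < n := by
      have h1 : Submodule.span ℝ (Face C (∑ i ∈ Finset.univ.erase l, w i)) ≠ ⊤ := by
        intro h2
        obtain ⟨y, hy⟩ := h.nonempty
        exact span_face_not hC hx hxC (by rw [h2]; trivial) hy
      have h3 := Submodule.finrank_lt h1
      rwa [Module.finrank_fin_fun] at h3
    have hk2 : k = 2 := by omega
    have hn4 : n = 4 := by omega
    subst hk2 hn4
    obtain ⟨w', P, hw', hPP, hPC, hPl, hPi, hPr⟩ := cd2 h (K := 3) (by norm_num) (by norm_num) hw l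
      (Nat.succ_le_of_lt hl)
    have hex : ∀ a b : Fin 3, ∃ j : Fin 3, j ≠ a ∧ j ≠ b := by decide
    have hthree : ∀ l i j m : Fin 3, i ≠ l → j ≠ l → m ≠ l → i = j ∨ j = m ∨ i = m := by decide
    have hrk : Module.finrank ℝ (LinearMap.ker P) = 3 := by
      have h1 := P.finrank_range_add_finrank_ker
      have h2 : LinearMap.range P = Submodule.span ℝ {w' l} := by
        apply le_antisymm
        · rintro _ ⟨y, rfl⟩
          obtain ⟨c, hc⟩ := hPr y
          rw [hc]
          exact Submodule.smul_mem _ _ (Submodule.mem_span_singleton_self _)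
        · rw [Submodule.span_singleton_le_iff_mem]
          exact ⟨w' l, hPl⟩
      rw [h2, finrank_span_singleton (h.hul.lamNe _ (hw'.2 l)), Module.finrank_fin_fun] at h1
      omega
    let L : Fin 3 → Submodule ℝ (V 4) := fun a =>
      if a = 0 then Submodule.span ℝ {w' l} else if a = 1 then LinearMap.ker P else ⊥
    let β : Fin 3 → Fin 3 := fun i => if i = l then 0 else 1
    have hL0 : L 0 = Submodule.span ℝ {w' l} := by simp [L]
    have hL1 : L 1 = LinearMap.ker P := by simp [L]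
    have hL2 : L 2 = ⊥ := by simp [L]
    have hbox : Box C Γ L w' β := by
      refine ⟨hw', fun i => ?_, ?_, ?_, ?_, ?_, ?_⟩
      · by_cases hi : i = l
        · have hb : β i = 0 := by simp [β, hi]
          rw [hb, hL0, hi]; exact Submodule.mem_span_singleton_self _
        · have hb : β i = 1 := by simp [β, hi]
          rw [hb, hL1]; exact hPi i hi
      · intro x hx hsum a
        have e0 := hx 0
        have e1 := hx 1
        have e2 := hx 2
        rw [hL0, Submodule.mem_span_singleton] at e0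
        rw [hL1, LinearMap.mem_ker] at e1
        rw [hL2, Submodule.mem_bot] at e2
        obtain ⟨c, hc⟩ := e0
        rw [Fin.sum_univ_three, e2, add_zero] at hsum
        obtain ⟨f1, f2⟩ := hPC _ hsum
        have f3 : P (x 0 + x 1) = x 0 := by
          rw [map_add, e1, add_zero, ← hc, map_smul, hPl]
        rw [f3] at f1 f2
        have f4 : x 0 + x 1 - x 0 = x 1 := by abel
        rw [f4] at f2
        fin_cases a
        · exact f1
        · exact f2
        · change x 2 ∈ closure C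
          rw [e2]; exact hC.zero_cl
      · intro a ha
        fin_cases a
        · exact absurd (by simp [β] : β l = 0) (ha l)
        · exfalso
          obtain ⟨i, hi⟩ := exists_ne l
          exact ha i (by simp [β, hi])
        · exact hL2
      · intro i hi x hx
        by_cases hil : i = l
        · have hb : β i = 0 := by simp [β, hil]
          rw [hb, hL0, Submodule.mem_span_singleton] at hx
          obtain ⟨c, hc⟩ := hx
          exact ⟨c, by rw [hil, hc]⟩
        · exfalso
          obtain ⟨j, hj1, hj2⟩ := hex l i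
          have hb : β j = β i := by simp [β, hj1, hil]
          exact hj2 (hi j hb)
      · intro i j hij hb
        have hi : i ≠ l := by
          intro hi
          have hj : j ≠ l := fun hj => hij (hi.trans hj.symm)
          simp [β, hi, hj] at hb
        have hbi : β i = 1 := by simp [β, hi]
        rw [hbi, hL1, hrk]
      · intro i j m hij hjm
        by_cases hi : i = l
        · by_cases hj : j = l
          · exact Or.inl (hi.trans hj.symm)
          · simp [β, hi, hj] at hij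
        · by_cases hj : j = l
          · simp [β, hi, hj] at hij
          · by_cases hm : m = l
            · simp [β, hj, hm] at hjm
            · exact hthree l i j m hi hj hm
    have htop : (⨆ a, L a) = ⊤ := by
      rw [eq_top_iff]
      intro x _
      have h1 : x = P x + (x - P x) := by abel
      rw [h1]
      refine Submodule.add_mem _ (Submodule.mem_iSup_of_mem 0 ?_) (Submodule.mem_iSup_of_mem 1 ?_)
      · rw [hL0]
        obtain ⟨c, hc⟩ := hPr x
        rw [hc]
        exact Submodule.smul_mem _ _ (Submodule.mem_span_singleton_self _)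
      · rw [hL1, LinearMap.mem_ker, map_sub, hPP, sub_self]
    obtain ⟨v', _, _, hv'⟩ := fib 4 C Γ h 2 hk hmax L w' β hbox (by
      rintro W ⟨e, he1, he2, _⟩ _
      have h1 : Module.finrank ℝ W = 4 := by
        rw [← he2, finrank_span_eq_card he1, Fintype.card_fin, htop, finrank_top,
          Module.finrank_fin_fun]
      have h2 : W = ⊤ := Submodule.eq_top_of_finrank_eq (by rw [h1, Module.finrank_fin_fun])
      intro q _ _ _ y _
      rw [h2]; trivial)
    exact ⟨2, hk, v', hv'⟩

end Pool.Agent.PFJ.H82
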