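import Pool.Agent.Helper82_PFJ.FIB
import Pool.Agent.PFJ.StmtsG

set_option autoImplicit false

open Matrix Filter Topology

namespace Pool.Agent.PFJ.H82

open Pool.Agent.PFS

theorem pz (stc : StcStmt) (blm : BlmStmt) (dsb : DsbStmt) (pzk : PzkStmt) : PzStmt := by
  intro n C Γ h k hk hmax P hP L w β hbox hPL
  have hK : 3 ≤ k + 1 := by omega
  have hD : Dat C Γ (k + 1) P :=
    { toCC := h
      three := hK
      fam := hP
      strict := fun L w β hb _ => stc n C Γ h (k + 1) hK hmax L w β hb
      lim := by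
        intro L x β p hb hp hlim
        obtain ⟨φ, L', w, g1, g2, _, g4, g5, g6, g7⟩ :=
          blm n C Γ h (k + 1) hK L x β p hb hp hlim
        exact ⟨φ, L', w, g1, g7, g2, g4, g5, g6⟩
      dsc := by
        intro L w β Lm x βm hb hPb hbm hPm hlim hdim
        exact dsb n C Γ h (k + 1) hK hmax P hP L w β Lm x βm hb hPb hbm hPm hdim hlim }
  exact pzk n C Γ k P hD L w β hbox hPL

end Pool.Agent.PFJ.H82
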