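import Pool.Agent.Helper82_PFJ.DSB
import Pool.Agent.Helper82_PFJ.PZ
import Pool.Agent.Helper60_PFJ.A0S
import Pool.Agent.Helper60_PFJ.AAS
import Pool.Agent.Helper60_PFJ.DSS
import Pool.Agent.Helper69_PFJ.Lsc
import Pool.Agent.Helper35_PFJ.BBS
import Pool.Agent.Helper24_PFJ.BCP
import Pool.Agent.Helper90_PFJ.BFA
import Pool.Agent.Helper39_PFJ.BLM
import Pool.Agent.Helper39_PFJ.NSF
import Pool.Agent.Helper84_PFJ.Cci
import Pool.Agent.Helper84_PFJ.Clf
import Pool.Agent.Helper84_PFJ.Sh2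
import Pool.Agent.Helper76_PFJ.CCJ
import Pool.Agent.Helper76_PFJ.UNF
import Pool.Agent.Helper76_PFJ.EI2
import Pool.Agent.Helper3_PFJ.EXT
import Pool.Agent.Helper3_PFJ.DEC
import Pool.Agent.Helper33_PFJ.Fc2
import Pool.Agent.Helper33_PFJ.Stc
import Pool.Agent.Helper33_PFJ.Chb
import Pool.Agent.Helper33_PFJ.Pzk
import Pool.Agent.Helper10_PFJ.FMX
import Pool.Agent.Helper10_PFJ.LSF
import Pool.Agent.Helper25_PFJ.PRB
import Pool.Agent.Helper52_PFJ.PSI
import Pool.Agent.Helper67_PFJ.SH1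
import Pool.Agent.Helper88_PFJ.SH3
import Pool.Agent.Helper18_PFJ.G_BOA
import Pool.Agent.Helper18_PFJ.G_FCU
import Pool.Agent.Helper41_PFJ.Bpb
import Pool.Agent.Helper94_PFJ.G_EVB
import Pool.Agent.Helper94_PFJ.G_NUN
import Pool.Agent.Helper13_PFJ.BP2
import Pool.Agent.Helper13_PFJ.SE2
import Pool.Agent.Helper13_PFJ.ZB2
import Pool.Agent.Helper10_PFB.FPC
import Pool.Agent.Helper41_PFB.Fix
import Pool.Agent.Helper69_PFB.Fce
import Pool.Agent.Helper76_PFB.G_BIP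
import Pool.Agent.Helper32_PFJ.Img
import Pool.Agent.Helper32_PFJ.Mns
import Pool.Agent.Helper77_PFJ.ZSS
import Pool.Agent.Helper87_PFSH.Asm
import Pool.Agent.Helper87_PFB.CTR
import Pool.Agent.Helper87_PFB.RKO
import Pool.Agent.Helper83_PFJ.MXE
import Pool.Agent.Helper82_PFJ.LD

set_option autoImplicit false

open Matrix Filter Topology

namespace Pool.Agent.PFJ.H82

open Pool.Agent.PFS

theorem bcpF : BcpStmt := H24.bcp H90.bfa
theorem extF : ExtStmt := H3.ext H90.bfa H76.unf bcpF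
theorem fc2F : Fc2Stmt := H33.fc2 bcpF
theorem stcF : StcStmt := H33.stc H90.bfa H76.unf
theorem prbF : PrbStmt := H25.prb H90.bfa H76.unf extF
theorem blmF : BlmStmt := H39.blm H69.lsc H10.lsf H90.bfa
theorem aasF : AasStmt := H60.aas H90.bfa H76.unf H60.a0s
theorem bacF : BacStmt := H69.bac H32.img
theorem zssF : ZssStmt := H77.zss H32.img stcF prbF bacF blmF H39.nsf
theorem mnsF : MnsStmt := H32.mns H39.nsf aasF
theorem dssF : DssStmt := H60.dss mnsF zssF H39.nsf aasF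
theorem bbsF : BbsStmt := H35.bbs zssF aasF
theorem sh1F : Sh1Stmt := H67.sh1 H90.bfa H76.unf bcpF extF fc2F
theorem sh3F : Sh3Stmt := H88.sh3 sh1F H84.sh2
theorem psiF : PsiStmt := H52.psi H90.bfa
theorem supF : SupStmt := H52.sup H90.bfa
theorem cciF : CciStmt := H84.cci H90.bfa H10.fmx psiF
theorem ccjF : CcjStmt := H76.ccj H90.bfa bcpF extF fc2F aasF H10.fmx psiF supF
theorem dsbF : DsbStmt := dsb H10.lsf stcF dssF bbsF aasF sh3F cciF ccjF
theorem boaF : BoaStmt := H18.g_boa H60.elm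
theorem fcuF : FcuStmt := H18.g_fcu boaF PFB.H69.fce
theorem decF : DecStmt := H3.dec boaF fcuF
theorem evbF : EvbStmt := H94.g_evb boaF decF
theorem nunF : NunStmt := H94.g_nun H60.lin
theorem zb2F : Zb2Stmt := H13.zb2 H60.elm H60.zom boaF evbF
theorem chbF : ChbStmt := H33.chb fcuF
theorem fixF : PFB.FixStmt := PFB.H41.fix H87.cmf H81.cmc H3.prp
theorem fpcF : PFB.FpcStmt := PFB.H10.fpc PFB.H69.fce
theorem se2F : Se2Stmt := H13.se2 nunF zb2F H76e.ei2 fixF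

theorem bpbF : BpbStmt :=
  H41.bpb PFB.H69.fce fpcF (PFB.H76.bip PFB.H87.ctr PFB.H87.rko)
theorem bp2F : Bp2Stmt := H13.bp2 fcuF chbF nunF zb2F H76e.ei2 bpbF
theorem pzkF : PzkStmt := H33.pzk bp2F se2F
theorem pzF : PzStmt := pz stcF blmF dsbF pzkF

/-- the product theorem -/
theorem fibF : FibStmt := fib H84.clf stcF extF H83.mxe pzF

/-- the theorem in dimension at most three -/
theorem lowF {n : ℕ} {C : Set (V n)} {Γ : Subgroup (GL (Fin n) ℝ)} (h : CC C Γ) (hn : n ≤ 4)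
    (h3 : ∃ w : Fin 3 → V n, IsPES C Γ w) :
    ∃ k : ℕ, 2 ≤ k ∧ ∃ v : Fin (k + 1) → V n, Concl C Γ k v := low fibF h hn h3

end Pool.Agent.PFJ.H82
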