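import Pool.Agent.PFJ.Stmts

set_option autoImplicit false

open Matrix Filter Topology

namespace Pool.Agent.PFJ.H82

open Pool.Agent.PFS

theorem dsb (lsf : LsfStmt) (stc : StcStmt) (dss : DssStmt) (bbs : BbsStmt) (aas : AasStmt)
    (sh3 : Sh3Stmt) (cci : CciStmt) (ccj : CcjStmt) : DsbStmt := by
  intro n C Γ h K hK hmax P hP L w β L' x β' hbox hPL hbox' hPL' hdim hlim
  by_contra hcon
  have hfr : ∃ᶠ m in atTop, ¬ (⨆ a, L' m a) = ⨆ a, L a := by
    rwa [Filter.not_eventually] at hcon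
  obtain ⟨φ, hφ, hφne⟩ := Filter.extraction_of_frequently_atTop hfr
  obtain ⟨Lo, wo, βo, Lo', wo', βo', i, hpair⟩ := dss n C Γ h K hK hmax P hP L w β
    (fun m => L' (φ m)) (fun m => x (φ m)) (fun m => β' (φ m)) hbox hPL
    (fun m => hbox' (φ m)) (fun m => hPL' (φ m)) (fun m => hdim (φ m))
    ((lsf n).1 (fun m => ⨆ a, L' m a) _ φ hlim hφ) (fun m hm => hφne m hm.symm)
  have hf := hP.full _ hpair.fam
  have hf' := hP.full _ hpair.fam'
  have hs := stc n C Γ h K hK hmax Lo wo βo hpair.box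
  have hs' := stc n C Γ h K hK hmax Lo' wo' βo' hpair.box'
  have hcl : ∀ i, wo i ∈ closure C := fun i => h.hul.lamCl _ (hpair.box.pes.2 i)
  have hmem : ∀ j, j ≠ i → wo j ∈ ⨆ a, Lo' a :=
    (aas n C Γ h.toPCone K hK Lo wo βo (⨆ a, Lo' a) hpair.box hcl hf' hpair.dim).2.1 i 2
      hpair.near
  have hbb := bbs n C Γ h K hK hmax P hP Lo wo βo Lo' wo' βo' i hpair
  obtain ⟨a', hle, hsh⟩ := sh3 n C Γ h K hK Lo wo βo Lo' wo' βo' i hpair.box hpair.box' hf hf'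
    hs hs' hmem
  rcases hsh with ⟨i', e1, e2, e3⟩ | ⟨l, e1, e2, e3, e4⟩
  · exact cci n C Γ h K hK hmax Lo wo βo Lo' wo' βo' i a' hpair.box hpair.box' hf hf' hs hs'
      hpair.dim hpair.ne hbb hle i' e1 e2 e3
  · exact ccj n C Γ h K hK hmax Lo wo βo Lo' wo' βo' i a' hpair.box hpair.box' hf hf' hs hs'
      hpair.dim hpair.ne hbb l e1 e2 e3 e4

end Pool.Agent.PFJ.H82
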