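import Pool.Agent.PFJ.Stmts

set_option autoImplicit false

open Matrix Filter Topology

namespace Pool.Agent.PFJ

open Pool.Agent.PFS

/-- the last row of section G -/
def PzStmt : Prop :=
  ∀ (n : ℕ) (C : Set (V n)) (Γ : Subgroup (GL (Fin n) ℝ)), CC C Γ → ∀ k : ℕ, 2 ≤ k →
    MaxCard C Γ (k + 1) → ∀ P : Submodule ℝ (V n) → Prop, FamS C Γ P →
    ∀ (L : Fin (k + 1) → Submodule ℝ (V n)) (w : Fin (k + 1) → V n)
      (β : Fin (k + 1) → Fin (k + 1)), Box C Γ L w β → P (⨆ a, L a) →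
      ∃ w' : Fin (k + 1) → V n, Box C Γ L w' β ∧
        ∃ A : Subgroup (GL (Fin n) ℝ), A ≤ Γ ∧
          Nonempty (↥A ≃* Multiplicative (Fin k → ℤ)) ∧
          ∀ a ∈ A, ∀ y ∈ PosCone w', act a y ∈ PosCone w'

namespace H82

theorem fib (clf : ClfStmt) (stc : StcStmt) (ext : ExtStmt) (mxe : MxeStmt) (pz : PzStmt) :
    FibStmt := by
  intro n C Γ h k hk hmax L v β hbox hfull
  have hK : 3 ≤ k + 1 := by omega
  have hW0 : ∃ x ∈ ⨆ a, L a, x ∈ C := by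
    refine ⟨∑ i, v i, ?_, ?_⟩
    · exact Submodule.sum_mem _ fun i _ => Submodule.mem_iSup_of_mem (β i) (hbox.mem i)
    · have h1 := hbox.pes.1.pos (fun _ => 1) (fun _ => one_pos)
      simpa using h1
  obtain ⟨hP, hT⟩ := clf n C Γ h (⨆ a, L a) hW0 hfull
  obtain ⟨w', hbox', A, hA, hA1, hA2⟩ := pz n C Γ h k hk hmax _ hP L v β hbox ⟨hT, hW0⟩
  have hf : Full C (⨆ a, L a) := hP.full _ ⟨hT, hW0⟩
  have hs := stc n C Γ h (k + 1) hK hmax L w' β hbox'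
  have hcl : ∀ i, w' i ∈ closure C := fun i => h.hul.lamCl _ (hbox'.pes.2 i)
  have hext := (ext n C Γ h.toPCone (k + 1) hK L w' β hbox' hcl hf hs).2.1
  have hind := H60.lin n C h.toPCone (Fin (k + 1)) w' hbox'.pes.1
  obtain ⟨h1, h2⟩ := (H32.frz n C h.toPCone (Fin (k + 1)) w' hind).mp hbox'.pes.1
  refine ⟨w', hbox'.pes, hbox'.mem, hind, h1, h2, ?_, A, hA, hA1, hA2⟩
  intro m w hw g1 g2 g3
  have hwp : PES C w := (H32.frz n C h.toPCone (Fin (m + 1)) w hw).mpr ⟨g1, g2⟩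
  exact mxe n C h.toPCone (k + 1) (by omega) w' hbox'.pes.1 hext (m + 1) w hwp g3

end H82

end Pool.Agent.PFJ
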